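import Pool.Agent.H174.GP.StA

open Finset

namespace Pool.Agent.H195.GP174

open Pool.Agent.H174.GP

theorem gp_topsum : Pool.Agent.H174.GP.S_toPsum := by
  intro d g h
  have h1 : ((Finset.univ : Finset (Fin d)).val.map (topP d g)).sum = ∑ i : Fin d, topP d g i := rfl
  have h2 : (∑ l : Fin d, Multiset.replicate (h l) ((l : ℕ) + 1)).sum =
      ∑ l : Fin d, ((l : ℕ) + 1) * h l := by
    have h3 := map_sum (Multiset.sumAddMonoidHom (M := ℕ))
      (fun l : Fin d => Multiset.replicate (h l) ((l : ℕ) + 1)) Finset.univ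
    simp only [Multiset.coe_sumAddMonoidHom] at h3
    rw [h3]
    refine Finset.sum_congr rfl fun l _ => ?_
    rw [Multiset.sum_replicate, smul_eq_mul, mul_comm]
  have h4 : ∑ i : Fin d, topP d g i = d ^ 2 + ∑ l : Fin d, ((l : ℕ) + 1) * g l := by
    unfold topP
    rw [Finset.sum_add_distrib, Finset.sum_const, Finset.card_univ, Fintype.card_fin, smul_eq_mul,
      ← pow_two]
    congr 1
    simp_rw [Finset.sum_filter]
    rw [Finset.sum_comm]
    refine Finset.sum_congr rfl fun l _ => ?_
    rw [← Finset.sum_filter, Finset.sum_const, smul_eq_mul]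
    have h5 : Finset.univ.filter (fun i : Fin d => i ≤ l) = Finset.Iic l := by
      ext i
      simp
    rw [h5, Fin.card_Iic]
  unfold toP
  rw [Multiset.sum_add, h1, h2, h4, add_assoc, ← Finset.sum_add_distrib]
  congr 1
  refine Finset.sum_congr rfl fun l _ => ?_
  ring

end Pool.Agent.H195.GP174
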